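import Pool.Agent.T2H96.XS.Rule
import Pool.Agent.T2H96.XS.Bor
import Pool.Agent.TH735.BF.Closure

/-!
Guards: relations `S(y, x)` whose solutions `x` can be followed along analytic curves `y = γ(t)`.
-/

set_option autoImplicit false

namespace Pool.Agent.T2H96.XE

open Set Filter Topology Metric
open scoped Cardinal
open Pool.Agent.TH735.QM Pool.Agent.TH735.FO Pool.Agent.T2H96.XS

/-- near `p` the set of all `q` with `P q` is the graph of an analytic function -/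
def GoodN {n : ℕ} (P : ℂ × Pt n → Prop) (p : ℂ × Pt n) : Prop :=
  ∃ φ : ℂ → Pt n, AnalyticAt ℂ φ p.1 ∧ φ p.1 = p.2 ∧ ∀ᶠ q : ℂ × Pt n in 𝓝 p, (P q ↔ q.2 = φ q.1)

/-- relations that may be used to guard quantifiers over `x ∈ ℂ^n` -/
structure Grd {m n : ℕ} (S : Pt m → Pt n → Prop) : Prop where
  ctb : ∀ y, {x | S y x}.Countable
  good : ∀ U : Set ℂ, IsOpen U → IsPreconnected U → ∀ γ : ℂ → Pt m, AnalyticOnNhd ℂ γ U →
    ∃ B : Set ℂ, B.Countable ∧ ∀ t ∈ U, t ∉ B → ∀ x, S (γ t) x →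
      GoodN (fun q : ℂ × Pt n => S (γ q.1) q.2) (t, x)
  cnt : ∀ U : Set ℂ, IsOpen U → IsPreconnected U → ∀ γ : ℂ → Pt m, AnalyticOnNhd ℂ γ U →
    ∀ Y : ℂ → Pt n → Prop, LQN U Y → QmOn U {t | ∃ x, S (γ t) x ∧ Y t x}
  cur : ∀ U : Set ℂ, IsOpen U → IsPreconnected U → ∀ γ : ℂ → Pt m, AnalyticOnNhd ℂ γ U →
    ∀ z : ℂ → Pt n, AnalyticOnNhd ℂ z U → QmOn U {t | S (γ t) (z t)}

theorem ne_QmOn {U : Set ℂ} (hUc : IsPreconnected U) {f : ℂ → ℂ} (hf : AnalyticOnNhd ℂ f U) :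
    QmOn U {t | f t ≠ 0} := (zeros_QmOn hUc hf).compl

theorem eq_QmOn {n : ℕ} {U : Set ℂ} (hUc : IsPreconnected U) {f : ℂ → Pt n}
    (hf : AnalyticOnNhd ℂ f U) : QmOn U {t | f t = 0} := by
  have h1 : QmOn U (⋂ i, {t | f t i = 0}) :=
    QmOn.iInter fun i => zeros_QmOn hUc fun t ht => (analyticAt_pi_iff.1 (hf t ht)) i
  refine h1.congr' ?_
  intro t _
  simp only [mem_iInter, Set.mem_ofPred_eq]
  exact ⟨fun h => funext h, fun h i => by rw [h]; rfl⟩

/-- exponential systems -/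
theorem grd_sys {m n : ℕ} {δ : Pt m → ℂ} {G E : Pt m → Pt n → Pt n} {Λ : Pt m → Pt n → ℂ}
    (h : ExpSys δ G E Λ) : Grd (IsSol δ G Λ) where
  ctb := by
    intro y
    have hZ := br_of_jac isOpen_univ
      (comp_analytic (U := Set.univ) (γ := fun _ : ℂ => y) (fun _ _ => analyticAt_const) h.an_G)
      (comp_analytic (U := Set.univ) (γ := fun _ : ℂ => y) (fun _ _ => analyticAt_const) h.an_L)
    refine (sol_countable hZ 0).mono ?_
    intro x hx
    exact ⟨mem_univ _, hx.2⟩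
  good := by
    intro U hU hUc γ hγ
    refine ⟨∅, countable_empty, ?_⟩
    intro t ht _ x hx
    have hZ := br_of_jac hU (comp_analytic hγ h.an_G) (comp_analytic hγ h.an_L)
    obtain ⟨φ, h1, h2, h3⟩ := hZ.br (t, x) ⟨ht, hx.2⟩
    refine ⟨φ, h1, h2, ?_⟩
    have e1 : ∀ᶠ q : ℂ × Pt n in 𝓝 (t, x), q.1 ∈ U :=
      (continuousAt_fst (p := (t, x))).eventually (hU.mem_nhds ht)
    have e2 : ∀ᶠ s in 𝓝 t, δ (γ s) ≠ 0 :=
      ((h.an_d (γ t) (mem_univ _)).comp (hγ t ht)).continuousAt.eventually_ne hx.1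
    have e3 : ∀ᶠ q : ℂ × Pt n in 𝓝 (t, x), δ (γ q.1) ≠ 0 :=
      (continuousAt_fst (p := (t, x))).eventually e2
    filter_upwards [h3, e1, e3] with q q1 q2 q3
    rw [← q1]
    exact ⟨fun h' => ⟨q2, h'.2⟩, fun h' => ⟨q3, h'.2⟩⟩
  cnt := by
    intro U hU hUc γ hγ Y hY
    refine (sys_count h hU hUc hγ hY 1).congr' ?_
    intro t _
    simp only [Set.mem_ofPred_eq]
    rw [Cardinal.one_le_iff_ne_zero, Cardinal.mk_ne_zero_iff, nonempty_subtype]
    rfl
  cur := by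
    intro U hU hUc γ hγ z hz
    have hpair : ∀ t ∈ U, AnalyticAt ℂ (fun t => (t, z t)) t := fun t ht =>
      analyticAt_id.prod (hz t ht)
    have hcomp : ∀ {F : Type} [NormedAddCommGroup F] [NormedSpace ℂ F] {f : ℂ × Pt n → F},
        AnalyticOnNhd ℂ f (U ×ˢ Set.univ) → AnalyticOnNhd ℂ (fun t => f (t, z t)) U := by
      intro F _ _ f hf t ht
      exact (hf (t, z t) ⟨ht, mem_univ _⟩).comp (f := fun t => (t, z t)) (x := t) (hpair t ht)
    have h1 : QmOn U {t | δ (γ t) ≠ 0} :=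
      ne_QmOn hUc fun t ht => (h.an_d (γ t) (mem_univ _)).comp (hγ t ht)
    have h2 : QmOn U {t | G (γ t) (z t) = 0} := eq_QmOn hUc (hcomp (comp_analytic hγ h.an_G))
    have h3 : QmOn U {t | Jd (fun p : ℂ × Pt n => G (γ p.1) p.2) (t, z t) ≠ 0} :=
      ne_QmOn hUc (hcomp (Jd_analytic hU (comp_analytic hγ h.an_G)))
    have h4 : QmOn U {t | Λ (γ t) (z t) ≠ 0} := ne_QmOn hUc (hcomp (comp_analytic hγ h.an_L))
    exact (h1.inter (h2.inter (h3.inter h4)))

/-- the vector with one coordinate -/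
def one1 (z : ℂ) : Pt 1 := fun _ => z

theorem one1_zero (x : Pt 1) : one1 (x 0) = x := by
  funext i
  rw [Subsingleton.elim i 0]
  rfl

theorem one1_analytic {U : Set ℂ} {z : ℂ → ℂ} (hz : AnalyticOnNhd ℂ z U) :
    AnalyticOnNhd ℂ (fun t => one1 (z t)) U := fun t ht => analyticAt_pi_iff.2 fun _ => hz t ht

theorem tendsto_one1 {t : ℂ} {x : Pt 1} :
    Tendsto (fun q : ℂ × Pt 1 => (q.1, q.2 0)) (𝓝 (t, x)) (𝓝 (t, x 0)) := by
  have : Continuous fun q : ℂ × Pt 1 => (q.1, q.2 0) := by fun_prop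
  exact this.continuousAt

/-- equations of finite order in one unknown -/
theorem grd_order {m : ℕ} {F : Pt m → ℂ → ℂ}
    (hF : AnalyticOnNhd ℂ (fun p : (Fin m → ℂ) × ℂ => F p.1 p.2) Set.univ)
    (hord : FiniteOrder F) : Grd (fun (y : Pt m) (x : Pt 1) => IsZero F y (x 0)) where
  ctb := by
    intro y
    by_cases hne : ∃ x, F y x ≠ 0
    · refine ((zeros_countable (Pool.Agent.TH735.BF.slice_diff hF y) hne).image one1).mono ?_
      intro x hx
      exact ⟨x 0, hx.2, one1_zero x⟩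
    · convert countable_empty using 1
      ext x
      simp only [Set.mem_ofPred_eq, mem_empty_iff_false, iff_false]
      exact fun h => hne h.1
  good := by
    intro U hU hUc γ hγ
    set f : ℂ × ℂ → ℂ := fun p => F (γ p.1) p.2 with hf
    have hfan : AnalyticOnNhd ℂ f (U ×ˢ Set.univ) := by
      rintro ⟨t, x⟩ ⟨ht, -⟩
      have h1 : AnalyticAt ℂ (fun p : ℂ × ℂ => (γ p.1, p.2)) (t, x) :=
        ((hγ t ht).comp (f := fun p : ℂ × ℂ => p.1) (x := (t, x)) analyticAt_fst).prod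
          analyticAt_snd
      exact (hF (γ t, x) (mem_univ _)).comp (f := fun p : ℂ × ℂ => (γ p.1, p.2))
        (x := (t, x)) h1
    by_cases hne : ∃ t ∈ U, ∃ x, f (t, x) ≠ 0
    · obtain ⟨t₁, ht₁, x₁, hx₁⟩ := hne
      have hsl := slice_left hfan x₁
      have hB := zeros_countableOn hUc hsl ⟨t₁, ht₁, hx₁⟩
      set U₁ : Set ℂ := U ∩ {t | f (t, x₁) ≠ 0} with hU₁
      have hU₁o : IsOpen U₁ := by
        have h1 : ContinuousOn (fun t => f (t, x₁)) U := hsl.continuousOn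
        exact h1.isOpen_inter_preimage hU isOpen_ne
      have hf₁ : AnalyticOnNhd ℂ f (U₁ ×ˢ Set.univ) :=
        hfan.mono (prod_mono inter_subset_left Subset.rfl)
      have hbad := (bad_countable hU₁o hf₁ (fun t ht => ⟨x₁, ht.2⟩)).image Prod.fst
      refine ⟨_, hB.union hbad, ?_⟩
      intro t ht htB x hx
      have h1 : f (t, x₁) ≠ 0 := fun h => htB (Or.inl ⟨ht, h⟩)
      have hG : Good f (t, x 0) := by
        by_contra hG
        exact htB (Or.inr ⟨(t, x 0), ⟨⟨ht, h1⟩, hx.2, hG⟩, rfl⟩)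
      obtain ⟨φ, hφ, hφx, hev⟩ := hG
      refine ⟨fun s => one1 (φ s), analyticAt_pi_iff.2 fun _ => hφ, ?_, ?_⟩
      · show one1 (φ t) = x
        have : φ t = x 0 := hφx
        rw [this, one1_zero]
      · have e1 : ∀ᶠ s in 𝓝 t, f (s, x₁) ≠ 0 := (hsl t ht).continuousAt.eventually_ne h1
        have e2 : ∀ᶠ q : ℂ × Pt 1 in 𝓝 (t, x), f (q.1, x₁) ≠ 0 :=
          (continuousAt_fst (p := (t, x))).eventually e1
        filter_upwards [tendsto_one1.eventually hev, e2] with q q1 q2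
        constructor
        · intro h2
          have h3 : q.2 0 = φ q.1 := q1.1 h2.2
          rw [← h3, one1_zero]
        · intro h2
          refine ⟨⟨x₁, q2⟩, ?_⟩
          have h3 : q.2 0 = φ q.1 := by rw [h2]; rfl
          exact q1.2 h3
    · refine ⟨∅, countable_empty, ?_⟩
      intro t ht _ x hx
      exact absurd ⟨t, ht, hx.1⟩ hne
  cnt := by
    intro U hU hUc γ hγ Y hY
    have hfan : AnalyticOnNhd ℂ (fun p : ℂ × ℂ => F (γ p.1) p.2) (U ×ˢ Set.univ) := by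
      rintro ⟨t, x⟩ ⟨ht, -⟩
      have h1 : AnalyticAt ℂ (fun p : ℂ × ℂ => (γ p.1, p.2)) (t, x) :=
        ((hγ t ht).comp (f := fun p : ℂ × ℂ => p.1) (x := (t, x)) analyticAt_fst).prod
          analyticAt_snd
      exact (hF (γ t, x) (mem_univ _)).comp (f := fun p : ℂ × ℂ => (γ p.1, p.2))
        (x := (t, x)) h1
    have hY1 : LQ U (fun t z => Y t (one1 z)) := by
      intro W hW hWo hWc z hz
      exact hY W hW hWo hWc _ (one1_analytic hz)
    have hgrow : ∀ t₀ ∈ U, ∃ (A : ℝ) (ρ : ℕ), ∀ᶠ t in 𝓝 t₀, ∀ x,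
        ‖F (γ t) x‖ ≤ Real.exp (A * (1 + ‖x‖) ^ ρ) := by
      intro t₀ ht₀
      obtain ⟨A, ρ, h⟩ := hord (γ t₀)
      exact ⟨A, ρ, (hγ t₀ ht₀).continuousAt.eventually h⟩
    have h1 := (finite_order_count hU hUc hfan hY1 hgrow).qm 1
    refine h1.congr' ?_
    intro t _
    simp only [Set.mem_ofPred_eq]
    rw [Cardinal.one_le_iff_ne_zero, Cardinal.mk_ne_zero_iff, nonempty_subtype]
    constructor
    · rintro ⟨z, h2, h3, h4⟩
      exact ⟨one1 z, ⟨h2, h3⟩, h4⟩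
    · rintro ⟨x, ⟨h2, h3⟩, h4⟩
      refine ⟨x 0, h2, h3, ?_⟩
      rw [one1_zero]
      exact h4
  cur := by
    intro U hU hUc γ hγ z hz
    have hz0 : AnalyticOnNhd ℂ (fun t => z t 0) U := fun t ht => (analyticAt_pi_iff.1 (hz t ht)) 0
    have han : AnalyticOnNhd ℂ (fun t => F (γ t) (z t 0)) U := by
      intro t ht
      exact (hF (γ t, z t 0) (mem_univ _)).comp (f := fun t => (γ t, z t 0)) (x := t)
        ((hγ t ht).prod (hz0 t ht))
    by_cases hne : ∃ t ∈ U, ∃ x, F (γ t) x ≠ 0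
    · obtain ⟨t₁, ht₁, x₁, hx₁⟩ := hne
      have hsl : AnalyticOnNhd ℂ (fun t => F (γ t) x₁) U := by
        intro t ht
        exact (hF (γ t, x₁) (mem_univ _)).comp (f := fun t => (γ t, x₁)) (x := t)
          ((hγ t ht).prod analyticAt_const)
      have hB := zeros_countableOn hUc hsl ⟨t₁, ht₁, hx₁⟩
      refine (zeros_QmOn hUc han).congr hB ?_
      intro t ht htB
      constructor
      · intro h0
        exact ⟨⟨x₁, fun h => htB ⟨ht, h⟩⟩, h0⟩
      · intro h0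
        exact h0.2
    · left
      convert countable_empty using 1
      ext t
      simp only [mem_inter_iff, Set.mem_ofPred_eq, mem_empty_iff_false, iff_false, not_and]
      intro ht h0
      exact hne ⟨t, ht, h0.1⟩

end Pool.Agent.T2H96.XE
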