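import Pool.Agent.T2H96.XE.Engine

/-!
Closures under solving guards in several unknowns: along an analytic curve their isomorphism type is
constant outside of a countable set.
-/

set_option autoImplicit false

namespace Pool.Agent.T2H96.XE

open Set Filter Topology Metric
open scoped Cardinal
open Pool.Agent.TH735.QM Pool.Agent.TH735.FO Pool.Agent.TH735.BF Pool.Agent.T2H96.XS

/-- the least set containing `A` and, with `y₁, …, y_m`, all coordinates of all solutions `x` of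
`S k y x` -/
inductive Cl {m n : ℕ → ℕ} (S : (k : ℕ) → Pt (m k) → Pt (n k) → Prop) (A : Set ℂ) : ℂ → Prop
  | base {z : ℂ} (hz : z ∈ A) : Cl S A z
  | sol {k : ℕ} {y : Pt (m k)} {x : Pt (n k)} (hy : ∀ a, Cl S A (y a)) (hx : S k y x)
      (i : Fin (n k)) : Cl S A (x i)

theorem Cl.mono {m n : ℕ → ℕ} {S : (k : ℕ) → Pt (m k) → Pt (n k) → Prop} {A A' : Set ℂ}
    (h : A ⊆ A') {z : ℂ} (hz : Cl S A z) : Cl S A' z := by
  induction hz with
  | base hz => exact Cl.base (h hz)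
  | sol _ hx i ih => exact Cl.sol ih hx i

theorem cl_countable {m n : ℕ → ℕ} {S : (k : ℕ) → Pt (m k) → Pt (n k) → Prop}
    (hS : ∀ k, Grd (S k)) {A : Set ℂ} (hA : A.Countable) : {z | Cl S A z}.Countable := by
  set L : ℕ → Set ℂ := fun N => Nat.rec A (fun _ T => T ∪ ⋃ k, ⋃ y ∈ {y : Pt (m k) |
    ∀ a, y a ∈ T}, ⋃ i, (fun x : Pt (n k) => x i) '' {x | S k y x}) N with hL
  have hL0 : L 0 = A := rfl
  have hLs : ∀ N, L (N + 1) = L N ∪ ⋃ k, ⋃ y ∈ {y : Pt (m k) |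
    ∀ a, y a ∈ L N}, ⋃ i, (fun x : Pt (n k) => x i) '' {x | S k y x} := fun N => rfl
  have hLc : ∀ N, (L N).Countable := by
    intro N
    induction N with
    | zero => exact hA
    | succ N ih =>
      rw [hLs]
      refine ih.union (countable_iUnion fun k => Set.Countable.biUnion
        (countable_pi (fun _ => ih)) fun y _ => countable_iUnion fun i => ?_)
      exact ((hS k).ctb y).image _
  have hmono : Monotone L := by
    apply monotone_nat_of_le_succ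
    intro N
    rw [hLs]
    exact subset_union_left
  refine (countable_iUnion hLc).mono ?_
  intro z hz
  simp only [Set.mem_ofPred_eq] at hz
  induction hz with
  | base hz => exact mem_iUnion.2 ⟨0, hz⟩
  | @sol k y x hy hx i ih =>
    have ih' : ∀ a, ∃ N, y a ∈ L N := fun a => mem_iUnion.1 (ih a)
    choose N hN using ih'
    refine mem_iUnion.2 ⟨(Finset.univ.sup N) + 1, ?_⟩
    rw [hLs]
    right
    refine mem_iUnion.2 ⟨k, mem_iUnion₂.2 ⟨y, ?_, mem_iUnion.2 ⟨i, x, hx, rfl⟩⟩⟩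
    intro a
    exact hmono (Finset.le_sup (Finset.mem_univ a)) (hN a)

theorem regN {m n : ℕ} {S : Pt m → Pt n → Prop} (hS : Grd S) (K : Set ℂ) (ι : Fin m → ℕ ⊕ K) :
    RegN n (fun x z => S (fun a => ev K x (ι a)) z) where
  good := fun p => hS.good p.U p.op p.conn _ (ev_an' K p ι)
  cnt := fun p Y hY => hS.cnt p.U p.op p.conn _ (ev_an' K p ι) Y hY
  cur := fun p W hWU hW hWc z hz =>
    hS.cur W hW hWc _ ((ev_an' K p ι).mono hWU) z hz

/-- The isomorphism type of the closure of a point on an analytic curve is constant outside of a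
countable set. -/
theorem closures {m n : ℕ → ℕ} {S : (k : ℕ) → Pt (m k) → Pt (n k) → Prop}
    (hS : ∀ k, Grd (S k)) {τ : Type} [Countable τ] {l : τ → ℕ}
    {R : (j : τ) → Set (Pt (l j))} (hR : ∀ j, CQ (l j) (R j)) {A : Set ℂ} (hA : A.Countable)
    {U : Set ℂ} (hU : IsOpen U)
    (hUc : IsPreconnected U) {d : ℕ} {γ : ℂ → Pt (d + 1)} (hγ : AnalyticOnNhd ℂ γ U) :
    ∃ B : Set ℂ, B.Countable ∧ ∀ t ∈ U, ∀ t' ∈ U, t ∉ B → t' ∉ B →
      ∃ σ : {z // Cl S (A ∪ range (γ t)) z} ≃ {z // Cl S (A ∪ range (γ t')) z},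
        (∀ i, (σ ⟨γ t i, Cl.base (Or.inr ⟨i, rfl⟩)⟩ : ℂ) = γ t' i) ∧
        (∀ z, ∀ hz : Cl S A z, (σ ⟨z, hz.mono subset_union_left⟩ : ℂ) = z) ∧
        ∀ j, ∀ v : Fin (l j) → {z // Cl S (A ∪ range (γ t)) z},
          (fun a => (v a : ℂ)) ∈ R j ↔ (fun a => (σ (v a) : ℂ)) ∈ R j := by
  rcases U.eq_empty_or_nonempty with hU0 | hU0
  · exact ⟨∅, countable_empty, fun t ht => absurd ht (by rw [hU0]; exact notMem_empty t)⟩
  set K : Set ℂ := {z | Cl S A z} with hK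
  have hKc : K.Countable := cl_countable hS hA
  have hKc' : Countable K := hKc.to_subtype
  set root : Pc := ⟨U, fun t i => if h : i < d + 1 then γ t ⟨i, h⟩ else γ t 0, hU, hUc, hU0, by
    intro i
    by_cases h : i < d + 1
    · simp only [h, dite_true]
      exact fun t ht => (analyticAt_pi_iff.1 (hγ t ht)) ⟨i, h⟩
    · simp only [h, dite_false]
      exact fun t ht => (analyticAt_pi_iff.1 (hγ t ht)) 0⟩ with hroot
  have hr1 : ∀ t i, ∃ a : Fin (d + 1), root.φ t i = γ t a := by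
    intro t i
    by_cases h : i < d + 1
    · exact ⟨⟨i, h⟩, dif_pos h⟩
    · exact ⟨0, dif_neg h⟩
  have hr2 : ∀ t, ∀ i : Fin (d + 1), root.φ t i = γ t i := by
    intro t i
    exact dif_pos i.2
  have hr0 : ∀ t ∈ root.U, ∀ i ≥ d + 1, root.φ t i = root.φ t 0 := by
    intro t _ i hi
    have h1 : ¬ i < d + 1 := by omega
    have h2 := hr2 t 0
    rw [Fin.val_zero] at h2
    exact (dif_neg h1).trans h2.symm
  obtain ⟨B, I, hB, hI0, hIs, hIj, hIt, hIg⟩ := engine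
    (ι := Σ k : ℕ, (Fin (m k) → ℕ ⊕ K))
    (τ := (Σ j : τ, (Fin (l j) → ℕ ⊕ K)) ⊕ ((ℕ ⊕ K) × (ℕ ⊕ K))) root (d + 1) hr0
    (fun i => n i.1)
    (fun i x z => S i.1 (fun a => ev K x (i.2 a)) z) (fun i => regN (hS i.1) K i.2)
    (Sum.elim (fun j x => (fun a => ev K x (j.2 a)) ∈ R j.1)
      (fun ab x => ev K x ab.1 = ev K x ab.2)) (by
      rintro (j | ab) p
      · exact test_rel (hR j.1) K j.2 p
      · exact test_eq K ab.1 ab.2 p)
  refine ⟨B, hB, ?_⟩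
  -- the states
  set St : ℂ → ℂ → ℕ → (ℕ → ℂ) → (ℕ → ℂ) → Prop := fun t t' k x x' =>
    1 ≤ k ∧ I t t' k x x' ∧ (∀ i, Cl S (A ∪ range (γ t)) (x i)) ∧
      ∀ i, Cl S (A ∪ range (γ t')) (x' i) with hSt
  have hSts : ∀ t t' k x x', St t t' k x x' → St t' t k x' x :=
    fun t t' k x x' h => ⟨h.1, hIs _ _ _ _ _ h.2.1, h.2.2.2, h.2.2.1⟩
  -- one step
  have hstep : ∀ t t', t ∉ B → t' ∉ B → ∀ k x x', St t t' k x x' → ∀ (q : ℕ)
      (ι : Fin (m q) → ℕ ⊕ K) (z : Pt (n q)), S q (fun a => ev K x (ι a)) z →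
      ∃ k₁ x₁ x₁', St t t' k₁ x₁ x₁' ∧ (∀ i, ∃ j, x₁ j = x i ∧ x₁' j = x' i) ∧
        ∀ a, ∃ j, x₁ j = z a := by
    intro t t' ht ht' k x x' hs q ι z hz
    obtain ⟨z', hz', hI'⟩ := hIg t t' ht ht' k x x' hs.2.1 hs.1 ⟨q, ι⟩ z hz
    have hj := hIj _ _ _ _ _ hs.2.1
    have hj' := hIj _ _ _ _ _ (hIs _ _ _ _ _ hs.2.1)
    have hk := hs.1
    have hcl : ∀ (t : ℂ) (x : ℕ → ℂ), (∀ i, Cl S (A ∪ range (γ t)) (x i)) → ∀ c : ℕ ⊕ K,
        Cl S (A ∪ range (γ t)) (ev K x c) := by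
      rintro t x hx (i | c)
      · exact hx i
      · exact c.2.mono subset_union_left
    have hupd : ∀ (t : ℂ) (x : ℕ → ℂ), (∀ i, Cl S (A ∪ range (γ t)) (x i)) → ∀ z : Pt (n q),
        (∀ a, Cl S (A ∪ range (γ t)) (z a)) → ∀ i, Cl S (A ∪ range (γ t)) (upd k x z i) := by
      intro t x hx z hz i
      unfold upd
      split
      · exact hz _
      · exact hx i
    refine ⟨k + n q, upd k x z, upd k x' z', ⟨by omega, hI', ?_, ?_⟩, ?_, fun a => ⟨k + a, upd_in a _ _⟩⟩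
    · exact hupd t x hs.2.2.1 z (Cl.sol (fun a => hcl t x hs.2.2.1 (ι a)) hz)
    · exact hupd t' x' hs.2.2.2 z' (Cl.sol (fun a => hcl t' x' hs.2.2.2 (ι a)) hz')
    · intro i
      by_cases h : i < k
      · exact ⟨i, by rw [upd_of (Or.inl h)], by rw [upd_of (Or.inl h)]⟩
      · refine ⟨0, ?_⟩
        rw [upd_of (Or.inl (by omega)), upd_of (Or.inl (by omega))]
        exact ⟨(hj _ (by omega)).symm, (hj' _ (by omega)).symm⟩
  -- every element of the closure can be reached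
  have hreach : ∀ t t', t ∉ B → t' ∉ B → ∀ x₀ x₀' k₀, St t t' k₀ x₀ x₀' →
      (∀ i, ∃ j, x₀ j = γ t i) → ∀ z, Cl S (A ∪ range (γ t)) z →
      ∀ k x x', St t t' k x x' → (∀ i, ∃ j, x j = x₀ i ∧ x' j = x₀' i) →
      ∃ k₁ x₁ x₁', St t t' k₁ x₁ x₁' ∧ (∀ i, ∃ j, x₁ j = x i ∧ x₁' j = x' i) ∧
        ∃ c : ℕ ⊕ K, ev K x₁ c = z := by
    intro t t' ht ht' x₀ x₀' k₀ hs₀ hγ₀ z hz
    induction hz with
    | @base z hz =>
      intro k x x' hs hle
      refine ⟨k, x, x', hs, fun i => ⟨i, rfl, rfl⟩, ?_⟩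
      rcases hz with hz | ⟨i, rfl⟩
      · exact ⟨Sum.inr ⟨z, Cl.base hz⟩, rfl⟩
      · obtain ⟨j, hj⟩ := hγ₀ i
        obtain ⟨j', hj', -⟩ := hle j
        exact ⟨Sum.inl j', hj'.trans hj⟩
    | @sol q y z hy hz b ih =>
      intro k x x' hs hle
      obtain ⟨s, hs1, hs2⟩ := exists_all
        (S := {s : ℕ × (ℕ → ℂ) × (ℕ → ℂ) // St t t' s.1 s.2.1 s.2.2 ∧
          ∀ i, ∃ j, s.2.1 j = x₀ i ∧ s.2.2 j = x₀' i})
        (fun s s' => ∀ i, ∃ j, s'.1.2.1 j = s.1.2.1 i ∧ s'.1.2.2 j = s.1.2.2 i)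
        (fun s i => ⟨i, rfl, rfl⟩)
        (fun s s' s'' h h' i => by
          obtain ⟨j, h1, h2⟩ := h i
          obtain ⟨j', h3, h4⟩ := h' j
          exact ⟨j', h3.trans h1, h4.trans h2⟩)
        (m := m q) (fun a s => ∃ c : ℕ ⊕ K, ev K s.1.2.1 c = y a)
        (fun a s s' h => by
          rintro ⟨c | c, hc⟩
          · obtain ⟨j, h1, -⟩ := h c
            exact ⟨Sum.inl j, h1.trans hc⟩
          · exact ⟨Sum.inr c, hc⟩)
        (fun a s => by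
          obtain ⟨k₁, x₁, x₁', h1, h2, h3⟩ := ih a s.1.1 s.1.2.1 s.1.2.2 s.2.1 s.2.2
          refine ⟨⟨(k₁, x₁, x₁'), h1, ?_⟩, h2, h3⟩
          intro i
          obtain ⟨j, h4, h5⟩ := s.2.2 i
          obtain ⟨j', h6, h7⟩ := h2 j
          exact ⟨j', h6.trans h4, h7.trans h5⟩)
        ⟨(k, x, x'), hs, hle⟩
      choose c hc using hs2
      obtain ⟨⟨k₂, x₂, x₂'⟩, hs3, hs4⟩ := s
      simp only at hs1 hc hs3 hs4
      have hy' : (fun a => ev K x₂ (c a)) = y := funext hc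
      obtain ⟨k₁, x₁, x₁', h1, h2, h3⟩ := hstep t t' ht ht' k₂ x₂ x₂' hs3 q c z
        (by rw [hy']; exact hz)
      obtain ⟨j, h3⟩ := h3 b
      refine ⟨k₁, x₁, x₁', h1, ?_, Sum.inl j, h3⟩
      intro i
      obtain ⟨j, h4, h5⟩ := hs1 i
      obtain ⟨j', h6, h7⟩ := h2 j
      exact ⟨j', h6.trans h4, h7.trans h5⟩
  intro t htU t' htU' ht ht'
  set x₀ := root.φ t with hx₀
  set x₀' := root.φ t' with hx₀'
  have hclr : ∀ t i, Cl S (A ∪ range (γ t)) (root.φ t i) := by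
    intro t i
    obtain ⟨a, ha⟩ := hr1 t i
    rw [ha]
    exact Cl.base (Or.inr ⟨a, rfl⟩)
  have hs₀ : St t t' (d + 1) x₀ x₀' := ⟨by omega, hI0 t htU t' htU', hclr t, hclr t'⟩
  have hc1 : Countable {z // Cl S (A ∪ range (γ t)) z} :=
    (cl_countable hS (hA.union (countable_range _))).to_subtype
  have hc2 : Countable {z // Cl S (A ∪ range (γ t')) z} :=
    (cl_countable hS (hA.union (countable_range _))).to_subtype
  obtain ⟨c, -, hcmono, hcD⟩ := exists_chain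
    (S := {s : ℕ × (ℕ → ℂ) × (ℕ → ℂ) // St t t' s.1 s.2.1 s.2.2 ∧
      ∀ i, ∃ j, s.2.1 j = x₀ i ∧ s.2.2 j = x₀' i})
    (fun s s' => ∀ i, ∃ j, s'.1.2.1 j = s.1.2.1 i ∧ s'.1.2.2 j = s.1.2.2 i)
    (fun s i => ⟨i, rfl, rfl⟩)
    (fun s s' s'' h h' i => by
      obtain ⟨j, h1, h2⟩ := h i
      obtain ⟨j', h3, h4⟩ := h' j
      exact ⟨j', h3.trans h1, h4.trans h2⟩)
    (ι := {z // Cl S (A ∪ range (γ t)) z} ⊕ {z // Cl S (A ∪ range (γ t')) z})
    (Sum.elim (fun z s => ∃ e : ℕ ⊕ K, ev K s.1.2.1 e = z)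
      (fun z s => ∃ e : ℕ ⊕ K, ev K s.1.2.2 e = z)) (by
      rintro (z | z) s
      · obtain ⟨k₁, x₁, x₁', h1, h2, h3⟩ := hreach t t' ht ht' x₀ x₀' (d + 1) hs₀
          (fun i => ⟨i, hr2 t i⟩) z.1 z.2 s.1.1 s.1.2.1 s.1.2.2 s.2.1 s.2.2
        refine ⟨⟨(k₁, x₁, x₁'), h1, ?_⟩, h2, h3⟩
        intro i
        obtain ⟨j, h4, h5⟩ := s.2.2 i
        obtain ⟨j', h6, h7⟩ := h2 j
        exact ⟨j', h6.trans h4, h7.trans h5⟩
      · obtain ⟨k₁, x₁, x₁', h1, h2, h3⟩ := hreach t' t ht' ht x₀' x₀ (d + 1)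
          (hSts _ _ _ _ _ hs₀)
          (fun i => ⟨i, hr2 t' i⟩) z.1 z.2 s.1.1 s.1.2.2 s.1.2.1 (hSts _ _ _ _ _ s.2.1)
          (fun i => by
            obtain ⟨j, h4, h5⟩ := s.2.2 i
            exact ⟨j, h5, h4⟩)
        refine ⟨⟨(k₁, x₁', x₁), hSts _ _ _ _ _ h1, ?_⟩, ?_, h3⟩
        · intro i
          obtain ⟨j, h4, h5⟩ := s.2.2 i
          obtain ⟨j', h6, h7⟩ := h2 j
          exact ⟨j', h7.trans h4, h6.trans h5⟩
        · intro i
          obtain ⟨j', h6, h7⟩ := h2 i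
          exact ⟨j', h7, h6⟩)
    ⟨(d + 1, x₀, x₀'), hs₀, fun i => ⟨i, rfl, rfl⟩⟩
  set G : ℂ → ℂ → Prop := fun a b => ∃ (N : ℕ) (e : ℕ ⊕ K), ev K (c N).1.2.1 e = a ∧
    ev K (c N).1.2.2 e = b with hG
  have hfin : ∀ (l : ℕ) (v w : Fin l → ℂ), (∀ a, G (v a) (w a)) → ∃ (N : ℕ)
      (ι : Fin l → ℕ ⊕ K), (fun a => ev K (c N).1.2.1 (ι a)) = v ∧
        (fun a => ev K (c N).1.2.2 (ι a)) = w := by
    intro l v w h
    choose N e h1 h2 using h
    have h3 : ∀ a, ∃ e' : ℕ ⊕ K, ev K (c (Finset.univ.sup N)).1.2.1 e' = v a ∧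
        ev K (c (Finset.univ.sup N)).1.2.2 e' = w a := by
      intro a
      have h4 := hcmono (N a) (Finset.univ.sup N) (Finset.le_sup (Finset.mem_univ a))
      have h5 := h1 a
      have h6 := h2 a
      generalize e a = u at h5 h6
      rcases u with i | k
      · obtain ⟨j, h7, h8⟩ := h4 i
        exact ⟨Sum.inl j, h7.trans h5, h8.trans h6⟩
      · exact ⟨Sum.inr k, h5, h6⟩
    choose ι h4 h5 using h3
    exact ⟨_, ι, funext h4, funext h5⟩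
  have hrel : ∀ j (v w : Fin (l j) → ℂ), (∀ a, G (v a) (w a)) → (v ∈ R j ↔ w ∈ R j) := by
    intro j v w h
    obtain ⟨N, ι, rfl, rfl⟩ := hfin _ v w h
    exact ⟨hIt t t' ht ht' _ _ _ (c N).2.1.2.1 (Sum.inl ⟨j, ι⟩),
      hIt t' t ht' ht _ _ _ (hIs _ _ _ _ _ (c N).2.1.2.1) (Sum.inl ⟨j, ι⟩)⟩
  have heq : ∀ a b a' b', G a b → G a' b' → (a = a' ↔ b = b') := by
    intro a b a' b' h h'
    obtain ⟨N, ι, h1, h2⟩ := hfin 2 ![a, a'] ![b, b'] (by
      intro i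
      fin_cases i
      · exact h
      · exact h')
    have e1 := congrFun h1 0
    have e2 := congrFun h1 1
    have e3 := congrFun h2 0
    have e4 := congrFun h2 1
    simp only [Matrix.cons_val_zero, Matrix.cons_val_one] at e1 e2 e3 e4
    rw [← e1, ← e2, ← e3, ← e4]
    exact ⟨hIt t t' ht ht' _ _ _ (c N).2.1.2.1 (Sum.inr (ι 0, ι 1)),
      hIt t' t ht' ht _ _ _ (hIs _ _ _ _ _ (c N).2.1.2.1) (Sum.inr (ι 0, ι 1))⟩
  have hcl : ∀ (t : ℂ) (x : ℕ → ℂ), (∀ i, Cl S (A ∪ range (γ t)) (x i)) → ∀ c : ℕ ⊕ K,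
      Cl S (A ∪ range (γ t)) (ev K x c) := by
    rintro t x hx (i | c)
    · exact hx i
    · exact c.2.mono subset_union_left
  have hex : ∀ z : {z // Cl S (A ∪ range (γ t)) z},
      ∃ w : {z // Cl S (A ∪ range (γ t')) z}, G z w := by
    intro z
    obtain ⟨N, e, he⟩ := hcD (Sum.inl z)
    exact ⟨⟨_, hcl t' _ (c N).2.1.2.2.2 e⟩, N, e, he, rfl⟩
  have hex' : ∀ w : {z // Cl S (A ∪ range (γ t')) z},
      ∃ z : {z // Cl S (A ∪ range (γ t)) z}, G z w := by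
    intro w
    obtain ⟨N, e, he⟩ := hcD (Sum.inr w)
    exact ⟨⟨_, hcl t _ (c N).2.1.2.2.1 e⟩, N, e, rfl, he⟩
  choose f hf using hex
  choose f' hf' using hex'
  have hfG : ∀ (z : {z // Cl S (A ∪ range (γ t)) z}) b, G z b → (f z : ℂ) = b :=
    fun z b h => (heq z (f z) z b (hf z) h).1 rfl
  refine ⟨⟨f, f', ?_, ?_⟩, ?_, ?_, ?_⟩
  · intro z
    exact Subtype.ext ((heq _ _ _ _ (hf' (f z)) (hf z)).2 rfl)
  · intro w
    exact Subtype.ext ((heq _ _ _ _ (hf (f' w)) (hf' w)).1 rfl)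
  · intro i
    apply hfG
    obtain ⟨j, h1, h2⟩ := (c 0).2.2 i
    refine ⟨0, Sum.inl j, ?_, ?_⟩
    · exact h1.trans (hr2 t i)
    · exact h2.trans (hr2 t' i)
  · intro z hz
    apply hfG
    exact ⟨0, Sum.inr ⟨z, hz⟩, rfl, rfl⟩
  · intro j v
    exact hrel j _ _ fun a => hf (v a)

end Pool.Agent.T2H96.XE
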