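import Pool.Agent.T2H96.XE.Piece

/-!
A back-and-forth system between any two points outside of a countable set.
-/

set_option autoImplicit false

namespace Pool.Agent.T2H96.XE

open Set Filter Topology Metric
open scoped Cardinal
open Pool.Agent.TH735.QM Pool.Agent.TH735.FO Pool.Agent.TH735.BF Pool.Agent.T2H96.XS

theorem engine {ι τ : Type} [Countable ι] [Countable τ] (root : Pc) (d : ℕ)
    (hd : ∀ t ∈ root.U, ∀ i ≥ d, root.φ t i = root.φ t 0) (n : ι → ℕ)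
    (g : (i : ι) → (ℕ → ℂ) → Pt (n i) → Prop)
    (hg : ∀ i, RegN (n i) (g i)) (T : τ → (ℕ → ℂ) → Prop)
    (hT : ∀ j, ∀ p : Pc, QmOn p.U {t | T j (p.φ t)}) :
    ∃ (B : Set ℂ) (I : ℂ → ℂ → ℕ → (ℕ → ℂ) → (ℕ → ℂ) → Prop), B.Countable ∧
      (∀ t ∈ root.U, ∀ t' ∈ root.U, I t t' d (root.φ t) (root.φ t')) ∧
      (∀ t t' L x x', I t t' L x x' → I t' t L x' x) ∧
      (∀ t t' L x x', I t t' L x x' → ∀ i ≥ L, x i = x 0) ∧
      (∀ t t', t ∉ B → t' ∉ B → ∀ L x x', I t t' L x x' → ∀ j, T j x → T j x') ∧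
      (∀ t t', t ∉ B → t' ∉ B → ∀ L x x', I t t' L x x' → 1 ≤ L → ∀ i z, g i x z →
        ∃ z', g i x' z' ∧ I t t' (L + n i) (upd L x z) (upd L x' z')) := by
  choose Q hQc hQ1 hQ2 using fun (i : ι) (p : Pc) (k : ℕ) => coverN (g i) p k
  set P : ℕ → Set (Pc × ℕ) := fun k => Nat.rec {(root, d)}
    (fun _ S => ⋃ p ∈ S, ⋃ i, (fun q => (q, p.2 + n i)) '' Q i p.1 p.2) k with hP
  have hP0 : P 0 = {(root, d)} := rfl
  have hPs : ∀ k, P (k + 1) = ⋃ p ∈ P k, ⋃ i, (fun q => (q, p.2 + n i)) '' Q i p.1 p.2 :=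
    fun k => rfl
  have hPc : ∀ k, (P k).Countable := by
    intro k
    induction k with
    | zero => rw [hP0]; exact countable_singleton _
    | succ k ih =>
      rw [hPs]
      exact ih.biUnion fun p _ => countable_iUnion fun i => (hQc i p.1 p.2).image _
  have hmemP : ∀ k, ∀ p ∈ P k, ∀ i, ∀ q ∈ Q i p.1 p.2, (q, p.2 + n i) ∈ P (k + 1) := by
    intro k p hp i q hq
    rw [hPs]
    exact mem_iUnion₂.2 ⟨p, hp, mem_iUnion.2 ⟨i, q, hq, rfl⟩⟩
  have hjunk : ∀ k, ∀ p ∈ P k, ∀ t ∈ p.1.U, (1 ≤ d → 1 ≤ p.2) ∧ ∀ i ≥ p.2, (1 ≤ d →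
      p.1.φ t i = p.1.φ t 0) := by
    intro k
    induction k with
    | zero =>
      intro p hp t ht
      rw [hP0, mem_singleton_iff] at hp
      subst hp
      exact ⟨fun h => h, fun i hi _ => hd t ht i hi⟩
    | succ k ih =>
      intro q hq t ht
      rw [hPs] at hq
      obtain ⟨p, hp, hq⟩ := mem_iUnion₂.1 hq
      obtain ⟨i, q', hq', rfl⟩ := mem_iUnion.1 hq
      obtain ⟨hsub, h1⟩ := hQ1 i p.1 p.2 q' hq'
      have h2 := (h1 t ht).1
      have h3 := ih p hp t (hsub ht)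
      refine ⟨fun hd1 => ?_, fun j hj hd1 => ?_⟩
      · have := h3.1 hd1
        show 1 ≤ p.2 + n i
        omega
      · have h4 := h3.1 hd1
        show q'.φ t j = q'.φ t 0
        rw [h2, upd_of (Or.inr hj), upd_of (Or.inl (by omega))]
        exact h3.2 j (le_trans (Nat.le_add_right _ _) hj) hd1
  -- the exceptional set
  choose Bd hBd hBd' using fun (i : ι) (p : Pc) => (hg i).good p
  set B : Set ℂ := ⋃ k, ⋃ p ∈ P k, ((⋃ j, exc (fun φ t => T j (φ t)) p.1) ∪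
    (⋃ i, ⋃ w ∈ P (k + 1), exc (EtN (g i) p.2 w.1) p.1) ∪ ⋃ i, Bd i p.1) with hB
  have hBc : B.Countable := by
    refine countable_iUnion fun k => (hPc k).biUnion fun p _ => ?_
    refine ((countable_iUnion fun j => exc_countable' (reg_test (hT j)) p.1).union
      (countable_iUnion fun i => (hPc (k + 1)).biUnion fun w _ =>
        exc_countable' (reg_EtN (hg i) _ _) p.1)).union (countable_iUnion fun i => hBd i p.1)
  have hB1 : ∀ t, t ∉ B → ∀ k, ∀ p ∈ P k, t ∈ p.1.U → ∀ j, (T j (p.1.φ t) ↔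
      Gn (fun φ t => T j (φ t)) p.1) := by
    intro t htB k p hp ht j
    by_contra hcon
    apply htB
    exact mem_iUnion.2 ⟨k, mem_iUnion₂.2 ⟨p, hp, Or.inl (Or.inl (mem_iUnion.2 ⟨j, ht, hcon⟩))⟩⟩
  have hB2 : ∀ t, t ∉ B → ∀ k, ∀ p ∈ P k, t ∈ p.1.U → ∀ i, ∀ w ∈ P (k + 1),
      (EtN (g i) p.2 w.1 p.1.φ t ↔ Gn (EtN (g i) p.2 w.1) p.1) := by
    intro t htB k p hp ht i w hw
    by_contra hcon
    apply htB
    exact mem_iUnion.2 ⟨k, mem_iUnion₂.2 ⟨p, hp, Or.inl (Or.inr (mem_iUnion.2 ⟨i,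
      mem_iUnion₂.2 ⟨w, hw, ht, hcon⟩⟩))⟩⟩
  have hB3 : ∀ t, t ∉ B → ∀ k, ∀ p ∈ P k, ∀ i, t ∉ Bd i p.1 := by
    intro t htB k p hp i h
    exact htB (mem_iUnion.2 ⟨k, mem_iUnion₂.2 ⟨p, hp, Or.inr (mem_iUnion.2 ⟨i, h⟩)⟩⟩)
  set I : ℂ → ℂ → ℕ → (ℕ → ℂ) → (ℕ → ℂ) → Prop := fun t t' L x x' =>
    ∃ k, ∃ p p' : Pc, (p, L) ∈ P k ∧ (p', L) ∈ P k ∧ Eqv p p' ∧ t ∈ p.U ∧ t' ∈ p'.U ∧ x = p.φ t ∧
      x' = p'.φ t' with hI
  by_cases hd1 : 1 ≤ d
  · refine ⟨B, I, hBc, ?_, ?_, ?_, ?_, ?_⟩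
    · intro t ht t' ht'
      exact ⟨0, root, root, rfl, rfl, Eqv.refl _, ht, ht', rfl, rfl⟩
    · rintro t t' L x x' ⟨k, p, p', hp, hp', he, ht, ht', hx, hx'⟩
      exact ⟨k, p', p, hp', hp, he.symm, ht', ht, hx', hx⟩
    · rintro t t' L x x' ⟨k, p, p', hp, hp', he, ht, ht', hx, hx'⟩ i hi
      rw [hx]
      exact (hjunk k (p, L) hp t ht).2 i hi hd1
    · rintro t t' htB htB' L x x' ⟨k, p, p', hp, hp', he, ht, ht', hx, hx'⟩ j hj
      rw [hx] at hj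
      rw [hx']
      exact (hB1 t' htB' k (p', L) hp' ht' j).2 (((hB1 t htB k (p, L) hp ht j).1 hj).eqv
        (reg_test (hT j)) he)
    · rintro t t' htB htB' L x x' ⟨k, p, p', hp, hp', he, ht, ht', rfl, rfl⟩ _ i z hz
      have hG := hBd' i p t ht (hB3 t htB k (p, L) hp i) z hz
      obtain ⟨q, hq, htq, hqz⟩ := hQ2 i p L t ht z hz hG
      obtain ⟨hqU, hq1⟩ := hQ1 i p L q hq
      have hqP : (q, L + n i) ∈ P (k + 1) := hmemP k (p, L) hp i q hq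
      have hE : EtN (g i) L q p.φ t := by
        refine ⟨z, hz, q, Eqv.refl _, htq, hqz, ?_⟩
        filter_upwards [q.op.mem_nhds htq] with s hs
        exact hq1 s hs
      have hE' : EtN (g i) L q p'.φ t' :=
        (hB2 t' htB' k (p', L) hp' ht' i (q, L + n i) hqP).2
          (((hB2 t htB k (p, L) hp ht i (q, L + n i) hqP).1 hE).eqv (reg_EtN (hg i) _ _) he)
      obtain ⟨z', hz', q'', hq''q, htq'', hqz'', hev⟩ := hE'
      have hG' := hBd' i p' t' ht' (hB3 t' htB' k (p', L) hp' i) z' hz'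
      obtain ⟨q', hq', htq', hqz'⟩ := hQ2 i p' L t' ht' z' hz' hG'
      obtain ⟨hqU', hq1'⟩ := hQ1 i p' L q' hq'
      have hqP' : (q', L + n i) ∈ P (k + 1) := hmemP k (p', L) hp' i q' hq'
      have huniq := goodN_unique hG' (blk_an L q' t' htq').continuousAt
        (blk_an L q'' t' htq'').continuousAt hqz' hqz'' (by
          filter_upwards [q'.op.mem_nhds htq'] with s hs
          exact (hq1' s hs).2) (hev.mono fun s hs => hs.2)
      have hov : Ov q' q'' := by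
        refine ⟨t', htq', htq'', ?_⟩
        filter_upwards [huniq, hev, q'.op.mem_nhds htq'] with s h1 h2 h3
        rw [(hq1' s h3).1, h2.1, h1]
      refine ⟨z', hz', k + 1, q, q', hqP, hqP', (hov.eqv.trans hq''q).symm, htq, htq', ?_, ?_⟩
      · rw [(hq1 t htq).1, hqz]
      · rw [(hq1' t' htq').1, hqz']
  · refine ⟨B, fun t t' L x x' => L = 0 ∧ I t t' L x x' ∧ ∀ i, x i = x 0 ∧ x' i = x' 0, hBc, ?_, ?_,
      ?_, ?_, ?_⟩
    · intro t ht t' ht'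
      exact ⟨by omega, ⟨0, root, root, rfl, rfl, Eqv.refl _, ht, ht', rfl, rfl⟩,
        fun i => ⟨hd t ht i (by omega), hd t' ht' i (by omega)⟩⟩
    · rintro t t' L x x' ⟨h0, ⟨k, p, p', hp, hp', he, ht, ht', hx, hx'⟩, h1⟩
      exact ⟨h0, ⟨k, p', p, hp', hp, he.symm, ht', ht, hx', hx⟩, fun i => (h1 i).symm⟩
    · rintro t t' L x x' ⟨h0, -, h1⟩ i _
      exact (h1 i).1
    · rintro t t' htB htB' L x x' ⟨-, ⟨k, p, p', hp, hp', he, ht, ht', hx, hx'⟩, -⟩ j hj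
      rw [hx] at hj
      rw [hx']
      exact (hB1 t' htB' k (p', L) hp' ht' j).2 (((hB1 t htB k (p, L) hp ht j).1 hj).eqv
        (reg_test (hT j)) he)
    · rintro t t' _ _ L x x' ⟨h0, -, -⟩ h1
      omega

end Pool.Agent.T2H96.XE
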