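import Pool.Agent.T2H96.XE.Grd

/-!
Adding the solutions of a guard to sequences of analytic functions.
-/

set_option autoImplicit false

namespace Pool.Agent.T2H96.XE

open Set Filter Topology Metric
open scoped Cardinal
open Pool.Agent.TH735.QM Pool.Agent.TH735.FO Pool.Agent.TH735.BF Pool.Agent.T2H96.XS

/-- replace the coordinates `k, …, k + n - 1` -/
def upd {n : ℕ} (k : ℕ) (x : ℕ → ℂ) (z : Pt n) : ℕ → ℂ :=
  fun i => if h : k ≤ i ∧ i - k < n then z ⟨i - k, h.2⟩ else x i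

/-- the coordinates `k, …, k + n - 1` -/
def blk (n k : ℕ) (x : ℕ → ℂ) : Pt n := fun a => x (k + a)

theorem blk_upd {n : ℕ} (k : ℕ) (x : ℕ → ℂ) (z : Pt n) : blk n k (upd k x z) = z := by
  funext a
  unfold blk upd
  have h : k ≤ k + (a : ℕ) ∧ k + (a : ℕ) - k < n := ⟨by omega, by have := a.2; omega⟩
  rw [dif_pos h]
  congr 1
  ext
  simp

theorem upd_of {n : ℕ} {k i : ℕ} (h : i < k ∨ k + n ≤ i) (x : ℕ → ℂ) (z : Pt n) :
    upd k x z i = x i := by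
  unfold upd
  rw [dif_neg]
  omega

theorem upd_in {n : ℕ} {k : ℕ} (a : Fin n) (x : ℕ → ℂ) (z : Pt n) : upd k x z (k + a) = z a :=
  congrFun (blk_upd k x z) a

/-- a guard depending on a sequence of coordinates -/
structure RegN (n : ℕ) (g : (ℕ → ℂ) → Pt n → Prop) : Prop where
  good : ∀ p : Pc, ∃ B : Set ℂ, B.Countable ∧ ∀ t ∈ p.U, t ∉ B → ∀ x, g (p.φ t) x →
    GoodN (fun q : ℂ × Pt n => g (p.φ q.1) q.2) (t, x)
  cnt : ∀ (p : Pc) (Y : ℂ → Pt n → Prop), LQN p.U Y → QmOn p.U {t | ∃ x, g (p.φ t) x ∧ Y t x}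
  cur : ∀ (p : Pc), ∀ W ⊆ p.U, IsOpen W → IsPreconnected W → ∀ z : ℂ → Pt n,
    AnalyticOnNhd ℂ z W → QmOn W {t | g (p.φ t) (z t)}

theorem goodN_tend {n : ℕ} {P : ℂ × Pt n → Prop} {t : ℂ} {x : Pt n} {φ : ℂ → Pt n}
    (hev : ∀ᶠ q : ℂ × Pt n in 𝓝 (t, x), (P q ↔ q.2 = φ q.1)) {a : ℂ → Pt n}
    (ha : ContinuousAt a t) (hat : a t = x) : ∀ᶠ s in 𝓝 t, (P (s, a s) ↔ a s = φ s) := by
  have h1 : Tendsto (fun s => (s, a s)) (𝓝 t) (𝓝 (t, x)) := by
    have h2 : Tendsto a (𝓝 t) (𝓝 x) := by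
      have := ha.tendsto
      rwa [hat] at this
    exact tendsto_id.prodMk_nhds h2
  exact h1.eventually hev

theorem goodN_unique {n : ℕ} {P : ℂ × Pt n → Prop} {t : ℂ} {x : Pt n} (hG : GoodN P (t, x))
    {a b : ℂ → Pt n} (ha : ContinuousAt a t) (hb : ContinuousAt b t) (hat : a t = x) (hbt : b t = x)
    (ha0 : ∀ᶠ s in 𝓝 t, P (s, a s)) (hb0 : ∀ᶠ s in 𝓝 t, P (s, b s)) :
    ∀ᶠ s in 𝓝 t, a s = b s := by
  obtain ⟨φ, -, -, hev⟩ := hG
  filter_upwards [goodN_tend hev ha hat, goodN_tend hev hb hbt, ha0, hb0] with s h3 h4 h5 h6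
  exact (h3.1 h5).trans (h4.1 h6).symm

/-- a curve which satisfies a good condition at all but countably many points satisfies it near `t` -/
theorem goodN_ev {n : ℕ} {P : ℂ × Pt n → Prop} {t : ℂ} {x : Pt n} (hG : GoodN P (t, x))
    {W : Set ℂ} (hW : IsOpen W) (ht : t ∈ W) {z : ℂ → Pt n} (hz : AnalyticOnNhd ℂ z W)
    (hzt : z t = x) (hc : (W \ {s | P (s, z s)}).Countable) : ∀ᶠ s in 𝓝 t, P (s, z s) := by
  obtain ⟨φ, hφ, -, hev⟩ := hG
  have h1 := goodN_tend hev (hz t ht).continuousAt hzt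
  have h2 : ∀ᶠ s in 𝓝 t, (P (s, z s) ↔ z s = φ s) ∧ s ∈ W ∧ ContinuousAt φ s ∧ ContinuousAt z s := by
    filter_upwards [h1, hW.mem_nhds ht, hφ.eventually_analyticAt] with s a b c
    exact ⟨a, b, c.continuousAt, (hz s b).continuousAt⟩
  obtain ⟨r, hr, hr'⟩ := Metric.eventually_nhds_iff_ball.1 h2
  filter_upwards [ball_mem_nhds t hr] with s hs
  by_contra hcon
  have h3 : z s ≠ φ s := fun h => hcon ((hr' s hs).1.2 h)
  have h4 : ∀ᶠ s' in 𝓝 s, z s' ≠ φ s' ∧ s' ∈ ball t r := by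
    have h5 : ∀ᶠ s' in 𝓝 s, (z s', φ s') ∈ (diagonal (Pt n))ᶜ :=
      ((hr' s hs).2.2.2.tendsto.prodMk_nhds (hr' s hs).2.2.1.tendsto).eventually
        (isClosed_diagonal.isOpen_compl.mem_nhds (x := (z s, φ s)) h3)
    filter_upwards [h5, isOpen_ball.mem_nhds hs] with s' a b
    exact ⟨a, b⟩
  obtain ⟨d, hd, hd'⟩ := Metric.eventually_nhds_iff_ball.1 h4
  apply ball_not_countable s hd
  refine hc.mono ?_
  intro s' hs'
  obtain ⟨h6, h7⟩ := hd' s' hs'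
  exact ⟨(hr' s' h7).2.1, fun h => h6 ((hr' s' h7).1.1 h)⟩

/-- adding functions to a piece -/
def Pc.addN {n : ℕ} (p : Pc) (k : ℕ) (W : Set ℂ) (z : ℂ → Pt n) (hWU : W ⊆ p.U) (hW : IsOpen W)
    (hWc : IsPreconnected W) (hne : W.Nonempty) (hz : AnalyticOnNhd ℂ z W) : Pc where
  U := W
  φ := fun t => upd k (p.φ t) (z t)
  op := hW
  conn := hWc
  ne := hne
  an := by
    intro i
    by_cases h : k ≤ i ∧ i - k < n
    · have : (fun t => upd k (p.φ t) (z t) i) = fun t => z t ⟨i - k, h.2⟩ := by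
        funext t
        unfold upd
        rw [dif_pos h]
      rw [this]
      exact fun t ht => (analyticAt_pi_iff.1 (hz t ht)) _
    · have : (fun t => upd k (p.φ t) (z t) i) = fun t => p.φ t i := by
        funext t
        unfold upd
        rw [dif_neg h]
      rw [this]
      exact (p.an i).mono hWU

theorem blk_an {n : ℕ} (k : ℕ) (p : Pc) : AnalyticOnNhd ℂ (fun t => blk n k (p.φ t)) p.U :=
  fun t ht => analyticAt_pi_iff.2 fun a => p.an (k + a) t ht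

/-- `z` is a solution for `φ t` such that the branch through it, added to `φ` at the place `k`, is
an analytic continuation of `w` -/
def YtN {n : ℕ} (g : (ℕ → ℂ) → Pt n → Prop) (k : ℕ) (w : Pc) (φ : ℂ → ℕ → ℂ) (t : ℂ) (z : Pt n) :
    Prop :=
  ∃ q : Pc, Eqv q w ∧ t ∈ q.U ∧ blk n k (q.φ t) = z ∧
    ∀ᶠ s in 𝓝 t, q.φ s = upd k (φ s) (blk n k (q.φ s)) ∧ g (φ s) (blk n k (q.φ s))

theorem lqn_YtN {n : ℕ} {g : (ℕ → ℂ) → Pt n → Prop} (hg : RegN n g) (p : Pc) (k : ℕ) (w : Pc) :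
    LQN p.U (YtN g k w p.φ) := by
  intro W hWU hW hWc z hz
  rcases W.eq_empty_or_nonempty with hW0 | hW0
  · left
    rw [hW0, empty_inter]
    exact countable_empty
  rcases hg.cur p W hWU hW hWc z hz with hc | hc
  · left
    refine hc.mono ?_
    rintro t ⟨ht, q, -, -, hqz, hev⟩
    refine ⟨ht, ?_⟩
    have := hev.self_of_nhds.2
    rw [hqz] at this
    exact this
  · obtain ⟨B, hB, hgood⟩ := hg.good p
    set qW := Pc.addN p k W z hWU hW hWc hW0 hz with hqW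
    have hbW : ∀ s, blk n k (qW.φ s) = z s := fun s => blk_upd k (p.φ s) (z s)
    have key : ∀ t ∈ W, t ∉ B ∪ (W \ {t | g (p.φ t) (z t)}) →
        (YtN g k w p.φ t (z t) ↔ Eqv qW w) := by
      intro t ht htB
      have htg : g (p.φ t) (z t) := by
        by_contra h
        exact htB (Or.inr ⟨ht, h⟩)
      have hG := hgood t (hWU ht) (fun h => htB (Or.inl h)) (z t) htg
      have hev1 : ∀ᶠ s in 𝓝 t, g (p.φ s) (z s) := goodN_ev hG hW ht hz rfl hc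
      constructor
      · rintro ⟨q, hqw, htq, hqz, hev⟩
        have huniq := goodN_unique hG (blk_an k q t htq).continuousAt (hz t ht).continuousAt hqz rfl
          (hev.mono fun s hs => hs.2) hev1
        have hov : Ov qW q := by
          refine ⟨t, ht, htq, ?_⟩
          filter_upwards [hev, huniq] with s h1 h2
          rw [h1.1, h2]
          rfl
        exact hov.eqv.trans hqw
      · intro hqw
        refine ⟨qW, hqw, ht, hbW t, ?_⟩
        filter_upwards [hev1] with s hs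
        rw [hbW]
        exact ⟨rfl, hs⟩
    by_cases hE : Eqv qW w
    · right
      refine (hB.union hc).mono ?_
      rintro t ⟨ht, hn⟩
      by_contra htB
      exact hn ((key t ht htB).2 hE)
    · left
      refine (hB.union hc).mono ?_
      rintro t ⟨ht, hn⟩
      by_contra htB
      exact hE ((key t ht htB).1 hn)

/-- there is a solution in the class `w` -/
def EtN {n : ℕ} (g : (ℕ → ℂ) → Pt n → Prop) (k : ℕ) (w : Pc) (φ : ℂ → ℕ → ℂ) (t : ℂ) : Prop :=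
  ∃ z, g (φ t) z ∧ YtN g k w φ t z

theorem reg_EtN {n : ℕ} {g : (ℕ → ℂ) → Pt n → Prop} (hg : RegN n g) (k : ℕ) (w : Pc) :
    Reg (EtN g k w) where
  loc := by
    rintro φ φ' t hev ⟨z, hz, q, h1, h2, h3, h4⟩
    have h0 : φ t = φ' t := hev.self_of_nhds
    rw [h0] at hz
    refine ⟨z, hz, q, h1, h2, h3, ?_⟩
    filter_upwards [hev, h4] with s h5 h6
    rw [← h5]
    exact h6
  qm := fun p => hg.cnt p _ (lqn_YtN hg p k w)

/-- countably many pieces cover the good solutions -/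
theorem coverN {n : ℕ} (g : (ℕ → ℂ) → Pt n → Prop) (p : Pc) (k : ℕ) :
    ∃ Q : Set Pc, Q.Countable ∧ (∀ q ∈ Q, q.U ⊆ p.U ∧ ∀ s ∈ q.U,
        q.φ s = upd k (p.φ s) (blk n k (q.φ s)) ∧ g (p.φ s) (blk n k (q.φ s))) ∧
      ∀ t ∈ p.U, ∀ z, g (p.φ t) z → GoodN (fun q : ℂ × Pt n => g (p.φ q.1) q.2) (t, z) →
        ∃ q ∈ Q, t ∈ q.U ∧ blk n k (q.φ t) = z := by
  set f : ℂ × Pt n → Prop := fun q => g (p.φ q.1) q.2 with hf
  have hloc : ∀ P ∈ {P : ℂ × Pt n | P.1 ∈ p.U ∧ GoodN f P}, ∃ q : Pc, ∃ N ∈ 𝓝 P,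
      (q.U ⊆ p.U ∧ ∀ s ∈ q.U,
        q.φ s = upd k (p.φ s) (blk n k (q.φ s)) ∧ g (p.φ s) (blk n k (q.φ s))) ∧
      ∀ P' ∈ N, f P' → P'.1 ∈ q.U ∧ blk n k (q.φ P'.1) = P'.2 := by
    rintro P ⟨hP, ψ, hψ, hψP, hev⟩
    have hcont : Tendsto (fun t => (t, ψ t)) (𝓝 P.1) (𝓝 P) := by
      have h1 : Tendsto ψ (𝓝 P.1) (𝓝 P.2) := by
        have := hψ.continuousAt.tendsto
        rwa [hψP] at this
      exact tendsto_id.prodMk_nhds h1
    have h1 : ∀ᶠ t in 𝓝 P.1, t ∈ p.U ∧ AnalyticAt ℂ ψ t ∧ f (t, ψ t) := by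
      filter_upwards [p.op.mem_nhds hP, hψ.eventually_analyticAt, hcont.eventually hev]
        with t h1 h2 h3
      exact ⟨h1, h2, h3.2 rfl⟩
    obtain ⟨r, hr, hr'⟩ := Metric.eventually_nhds_iff_ball.1 h1
    set q := Pc.addN p k (ball P.1 r) ψ (fun t ht => (hr' t ht).1) isOpen_ball
      (convex_ball P.1 r).isPreconnected (nonempty_ball.2 hr) (fun t ht => (hr' t ht).2.1) with hq
    have hqn : ∀ s, blk n k (q.φ s) = ψ s := fun s => blk_upd k (p.φ s) (ψ s)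
    refine ⟨q, {P' | P'.1 ∈ ball P.1 r ∧ (f P' ↔ P'.2 = ψ P'.1)}, ?_, ⟨?_, ?_⟩, ?_⟩
    · have h2 : ∀ᶠ q : ℂ × Pt n in 𝓝 P, q.1 ∈ ball P.1 r :=
        (continuousAt_fst (p := P)).eventually (ball_mem_nhds P.1 hr)
      filter_upwards [h2, hev] with P' h3 h4
      exact ⟨h3, h4⟩
    · exact fun t ht => (hr' t ht).1
    · intro s hs
      rw [hqn]
      exact ⟨rfl, (hr' s hs).2.2⟩
    · rintro P' ⟨h3, h4⟩ h5
      refine ⟨h3, ?_⟩
      rw [hqn]
      exact (h4.1 h5).symm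
  have hPc : Nonempty Pc := ⟨p⟩
  choose! q N hN hq1 hq2 using hloc
  obtain ⟨T, hTS, hT, hcov⟩ := TopologicalSpace.countable_cover_nhdsWithin
    (f := N) (s := {P : ℂ × Pt n | P.1 ∈ p.U ∧ GoodN f P})
    (fun P hP => mem_nhdsWithin_of_mem_nhds (hN P hP))
  refine ⟨q '' T, hT.image q, ?_, ?_⟩
  · rintro _ ⟨P, hP, rfl⟩
    exact hq1 P (hTS hP)
  · intro t ht z h0 hG
    obtain ⟨P, hP, hmem⟩ := mem_iUnion₂.1 (hcov ⟨ht, hG⟩)
    obtain ⟨h1, h2⟩ := hq2 P (hTS hP) (t, z) hmem h0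
    exact ⟨q P, mem_image_of_mem q hP, h1, h2⟩

end Pool.Agent.T2H96.XE
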